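import Pool.Agent.Work.MP_f08fab_gt.HFinal

/-!
# Bridge positions of a link are finite in number modulo the kernel of the symplectic
representation of the braid group

`Braid (2 * g + 1)` is the braid group on `2 n = 2 (g + 1)` strands, `hilden g` its Hilden subgroup
`H`, and `homRep g` its action on the first homology of the double cover of the sphere branched in
`2 n` points.  For every link `L` and every `n` the set of `n`-bridge positions of `L` meets only
finitely many of the sets `H s K H`, where `K` is the kernel of `homRep g`.
-/

set_option autoImplicit false

namespace Pool.Agent.Results.MP_f08fab_gt.FiniteModuloKernel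

open Pool.Agent.Work.Hild

/-- for every `g` and every link `L` there is a finite set `S` of braids on `2 (g + 1)` strands
whose plat closures are `L`, such that every braid on `2 (g + 1)` strands whose plat closure is `L`
has the form `h * (s * k) * h'` with `s` in `S`, `h` and `h'` in the Hilden subgroup and `k` in the
kernel of the symplectic representation `homRep g`; the number of elements of `S` is bounded in
terms of `g` and of any positive integer `e` which annihilates the torsion of the cokernel of the
block `matC L.2` -/
theorem result : ∀ (g : ℕ) (L : Σ g : ℕ, Braid (2 * g + 1)),
    ∃ S : Finset (Braid (2 * g + 1)),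
      (∀ e : ℕ, 0 < e → TorLink e L → S.card ≤ bound g e) ∧
      (∀ s ∈ S, SameLink ⟨g, s⟩ L) ∧
      ∀ β, SameLink ⟨g, β⟩ L → ∃ s ∈ S, SameModK β s :=
  finite_all

end Pool.Agent.Results.MP_f08fab_gt.FiniteModuloKernel
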